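import Pool.Agent.W288.LM.Win

/-!
# Consequences, and passage to real numbers
-/

set_option autoImplicit false

open Finset

namespace Pool.Agent.W288.LM

open Pool.Agent.H394R2.Ones Pool.Agent.H820R3.DG

lemma log_step (n : ℕ) (hn : 1 ≤ n) :
    Real.sqrt n * (1 / Real.sqrt n - 1 / Real.sqrt ((n + 1 : ℕ) : ℝ)) ≤
      1 / 2 * (Real.log ((n + 1 : ℕ) : ℝ) - Real.log n) := by
  have hn0 : (0 : ℝ) < n := by exact_mod_cast hn
  have hn1 : (0 : ℝ) < ((n + 1 : ℕ) : ℝ) := by positivity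
  have h1 := Real.one_sub_inv_le_log_of_pos
    (show 0 < Real.sqrt ((n + 1 : ℕ) : ℝ) / Real.sqrt n by positivity)
  rw [Real.log_div (by positivity) (by positivity), Real.log_sqrt hn1.le, Real.log_sqrt hn0.le,
    inv_div] at h1
  have h2 : Real.sqrt n * (1 / Real.sqrt n - 1 / Real.sqrt ((n + 1 : ℕ) : ℝ)) =
      1 - Real.sqrt n / Real.sqrt ((n + 1 : ℕ) : ℝ) := by
    have : 0 < Real.sqrt n := by positivity
    field_simp
  rw [h2]
  linarith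

lemma part_sum (f : ℕ → ℝ) (c : ℝ) (hc : 0 ≤ c) (m : ℕ) (hm : 1 ≤ m) (n : ℕ) (hmn : m ≤ n)
    (h : ∀ t, m ≤ t → t < n → ∑ k ∈ Icc 1 t, f k ≤ c * Real.sqrt t) :
    ∑ i ∈ Ioc m n, f i / Real.sqrt i + (∑ k ∈ Icc 1 m, f k) / Real.sqrt m ≤
      (∑ k ∈ Icc 1 n, f k) / Real.sqrt n + c / 2 * (Real.log n - Real.log m) := by
  induction n, hmn using Nat.le_induction with
  | base => simp
  | succ n hmn ih =>
    have ih' := ih fun t h1 h2 => h t h1 (by omega)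
    have h1 := h n hmn (Nat.lt_succ_self n)
    rw [Finset.sum_Ioc_succ_top hmn, Finset.sum_Icc_succ_top (by omega)]
    have h2 := log_step n (by omega)
    have hs : 0 < Real.sqrt n := Real.sqrt_pos.mpr (by exact_mod_cast (by omega : 0 < n))
    have h3 : 1 / Real.sqrt ((n + 1 : ℕ) : ℝ) ≤ 1 / Real.sqrt n := by
      apply one_div_le_one_div_of_le hs
      apply Real.sqrt_le_sqrt
      push_cast
      linarith
    have h4 : (∑ k ∈ Icc 1 n, f k) * (1 / Real.sqrt n - 1 / Real.sqrt ((n + 1 : ℕ) : ℝ)) ≤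
        c * (Real.sqrt n * (1 / Real.sqrt n - 1 / Real.sqrt ((n + 1 : ℕ) : ℝ))) := by
      rw [← mul_assoc]
      exact mul_le_mul_of_nonneg_right h1 (by linarith)
    have h5 := mul_le_mul_of_nonneg_left h2 hc
    have e1 : (∑ k ∈ Icc 1 n, f k) * (1 / Real.sqrt n - 1 / Real.sqrt ((n + 1 : ℕ) : ℝ)) =
      (∑ k ∈ Icc 1 n, f k) / Real.sqrt n -
        (∑ k ∈ Icc 1 n, f k) / Real.sqrt ((n + 1 : ℕ) : ℝ) := by ring
    have e2 : (∑ k ∈ Icc 1 n, f k + f (n + 1)) / Real.sqrt ((n + 1 : ℕ) : ℝ) =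
      (∑ k ∈ Icc 1 n, f k) / Real.sqrt ((n + 1 : ℕ) : ℝ) +
        f (n + 1) / Real.sqrt ((n + 1 : ℕ) : ℝ) := by ring
    rw [e1] at h4
    rw [e2]
    linarith

/-- the three statements for a sequence `f` -/
def Good (f : ℕ → ℝ) (s : ℝ) : Prop :=
  (∀ ε : ℝ, 0 < ε → ∃ C : ℝ, ∀ m n : ℕ, 1 ≤ m → m ≤ n →
    (s - ε) * Real.log ((n : ℝ) / m) - C ≤
      ∑ i ∈ Ioc m n, f i / Real.sqrt i + (∑ k ∈ Icc 1 m, f k) / Real.sqrt m) ∧
  (∀ ε : ℝ, 0 < ε → ∃ n₀ : ℕ, ∀ n : ℕ, n₀ ≤ n →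
    (s - ε) * Real.log n ≤ ∑ i ∈ Icc 1 n, f i / Real.sqrt i) ∧
  (∀ ε : ℝ, 0 < ε → ∃ L : ℕ, ∀ m : ℕ, 1 ≤ m → ∃ t : ℕ, m ≤ t ∧ t ≤ L * m ∧
    (2 * s - ε) * Real.sqrt t ≤ ∑ k ∈ Icc 1 t, f k)

theorem conseq (f : ℕ → ℝ) (hf : ∀ k, 0 ≤ f k) (s : ℝ)
    (H : ∀ ε : ℝ, 0 < ε → ∃ C : ℝ, ∀ m n : ℕ, 1 ≤ m → m ≤ n →
      (s - ε) * Real.log ((n : ℝ) / m) - C ≤
        ∑ i ∈ Ioc m n, f i / Real.sqrt i + (∑ k ∈ Icc 1 m, f k) / Real.sqrt m) : Good f s := by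
  refine ⟨H, ?_, ?_⟩
  · intro ε hε
    obtain ⟨C, hC⟩ := H (ε / 2) (by positivity)
    have htend : Filter.Tendsto (fun n : ℕ => Real.log (n : ℝ)) Filter.atTop Filter.atTop :=
      Real.tendsto_log_atTop.comp tendsto_natCast_atTop_atTop
    obtain ⟨n₀, hn₀⟩ := Filter.eventually_atTop.mp (htend.eventually_ge_atTop (2 * C / ε))
    refine ⟨max n₀ 1, fun n hn => ?_⟩
    have h1 := hn₀ n ((le_max_left _ _).trans hn)
    have h2 := hC 1 n le_rfl ((le_max_right _ _).trans hn)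
    have h3 : ∑ i ∈ Icc 1 n, f i / Real.sqrt i =
        ∑ i ∈ Ioc 1 n, f i / Real.sqrt i + (∑ k ∈ Icc 1 1, f k) / Real.sqrt ((1 : ℕ) : ℝ) := by
      have h4 : Icc 1 n = insert 1 (Ioc 1 n) := by
        have : 1 ≤ n := (le_max_right _ _).trans hn
        ext j; simp only [mem_Icc, mem_insert, mem_Ioc]; omega
      rw [h4, sum_insert (by simp)]
      simp
      ring
    rw [h3]
    refine le_trans ?_ h2
    rw [Nat.cast_one, div_one]
    rw [div_le_iff₀ hε] at h1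
    linarith
  · intro ε hε
    obtain ⟨C, hC⟩ := H (ε / 4) (by positivity)
    rcases le_or_gt (2 * s - ε) 0 with hc | hc
    · refine ⟨1, fun m hm => ⟨m, le_rfl, by omega, ?_⟩⟩
      have h1 : (2 * s - ε) * Real.sqrt m ≤ 0 :=
        mul_nonpos_of_nonpos_of_nonneg hc (Real.sqrt_nonneg _)
      exact h1.trans (sum_nonneg fun k _ => hf k)
    set c := 2 * s - ε with hcd
    obtain ⟨L, hL⟩ := exists_nat_gt (Real.exp (4 * (C + c) / ε))
    refine ⟨L + 1, fun m hm => ?_⟩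
    by_contra hcon
    push Not at hcon
    have hm0 : (0 : ℝ) < m := by exact_mod_cast hm
    have hmn : m ≤ (L + 1) * m := Nat.le_mul_of_pos_left m (Nat.succ_pos L)
    have h1 := hC m ((L + 1) * m) hm hmn
    have h2 := part_sum f c hc.le m hm ((L + 1) * m) hmn fun t ht1 ht2 => (hcon t ht1 ht2.le).le
    have h3 := (hcon ((L + 1) * m) hmn le_rfl).le
    have hn0 : 0 < Real.sqrt (((L + 1) * m : ℕ) : ℝ) := Real.sqrt_pos.mpr (by
      have : 0 < (L + 1) * m := by positivity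
      exact_mod_cast this)
    have h4 : (∑ k ∈ Icc 1 ((L + 1) * m), f k) / Real.sqrt (((L + 1) * m : ℕ) : ℝ) ≤ c := by
      rw [div_le_iff₀ hn0]; exact h3
    have h5 : ((((L + 1) * m : ℕ) : ℝ)) / m = L + 1 := by
      push_cast
      field_simp
    have h6 : Real.log ((((L + 1) * m : ℕ) : ℝ)) - Real.log m = Real.log ((L : ℝ) + 1) := by
      rw [← Real.log_div (by positivity) (by positivity), h5]
    rw [h5] at h1
    rw [h6] at h2
    have h7 : 4 * (C + c) / ε < Real.log ((L : ℝ) + 1) := by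
      rw [Real.lt_log_iff_exp_lt (by positivity)]
      linarith
    rw [div_lt_iff₀ hε] at h7
    have h8 : (s - ε / 4) * Real.log ((L : ℝ) + 1) = c / 2 * Real.log ((L : ℝ) + 1) +
      Real.log ((L : ℝ) + 1) * ε / 4 := by rw [hcd]; ring
    rw [h8] at h1
    linarith

/-- the `k`-th digit of `ξ` after the point in base `b` -/
noncomputable def digit (b : ℕ) (ξ : ℝ) (k : ℕ) : ℤ := ⌊ξ * (b : ℝ) ^ k⌋ % (b : ℤ)

lemma digit_neg {b : ℕ} (hb : 2 ≤ b) {ξ : ℝ} (hirr : Irrational ξ) (k : ℕ) :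
    digit b (-ξ) k = b - 1 - digit b ξ k := by
  unfold digit
  have h1 : ⌊-ξ * (b : ℝ) ^ k⌋ = -⌊ξ * (b : ℝ) ^ k⌋ - 1 := by
    have h2 : Irrational (ξ * ((b ^ k : ℕ) : ℝ)) := hirr.mul_natCast (by positivity)
    have h3 : ξ * (b : ℝ) ^ k = ξ * ((b ^ k : ℕ) : ℝ) := by push_cast; rfl
    rw [neg_mul, h3]
    set z : ℝ := ξ * ((b ^ k : ℕ) : ℝ) with hz
    rw [Int.floor_eq_iff]
    push_cast
    have h4 := Int.floor_le z
    have h5 := Int.lt_floor_add_one z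
    have h6 : (⌊z⌋ : ℝ) ≠ z := fun h => h2 ⟨(⌊z⌋ : ℚ), by push_cast; exact h⟩
    have h7 : (⌊z⌋ : ℝ) < z := lt_of_le_of_ne h4 h6
    constructor <;> linarith
  rw [h1]
  set m := ⌊ξ * (b : ℝ) ^ k⌋
  have hb' : (0 : ℤ) < b := by exact_mod_cast (by omega : 0 < b)
  have h8 := Int.emod_add_mul_ediv m b
  have h9 := Int.emod_nonneg m hb'.ne'
  have h10 := Int.emod_lt_of_pos m hb'
  have h11 : -m - 1 = (b - 1 - m % b) + b * (-(m / b) - 1) := by linarith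
  rw [h11, Int.add_mul_emod_self_left]
  exact Int.emod_eq_of_lt (by omega) (by omega)

lemma digit_eq {b : ℕ} {ξ : ℝ} (hirr : Irrational ξ) (k : ℕ) :
    (digit b ξ (k + 1) : ℝ) = x b (Int.fract ξ) (k + 1) := by
  set y : ℝ := Int.fract ξ with hy
  have hξ : ξ = ⌊ξ⌋ + y := (Int.floor_add_fract ξ).symm
  have hyirr : Irrational y := by
    have : y = ξ - (⌊ξ⌋ : ℤ) := rfl
    rw [this]
    exact hirr.sub_intCast _
  have hy0 : 0 < y := lt_of_le_of_ne (Int.fract_nonneg ξ) (Ne.symm hyirr.ne_zero)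
  have hdig : digit b ξ (k + 1) = (x b y (k + 1) : ℤ) := by
    unfold digit
    have h1 : ξ * (b : ℝ) ^ (k + 1) = ((⌊ξ⌋ * (b : ℤ) ^ (k + 1) : ℤ) : ℝ) +
        y * (b : ℝ) ^ (k + 1) := by
      nth_rewrite 1 [hξ]
      push_cast
      ring
    rw [h1, Int.floor_intCast_add]
    unfold x Pool.Agent.H394R2.Ones.B
    push_cast
    rw [Int.natCast_floor_eq_floor (by positivity)]
    rw [show ⌊ξ⌋ * (b : ℤ) ^ (k + 1) + ⌊y * (b : ℝ) ^ (k + 1)⌋ =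
      ⌊y * (b : ℝ) ^ (k + 1)⌋ + (b : ℤ) * (⌊ξ⌋ * (b : ℤ) ^ k) by ring, Int.add_mul_emod_self_left]
  rw [hdig]
  push_cast
  rfl

lemma digit_nonneg {b : ℕ} (hb : 2 ≤ b) (ξ : ℝ) (k : ℕ) : (0 : ℝ) ≤ digit b ξ k := by
  unfold digit
  have := Int.emod_nonneg ⌊ξ * (b : ℝ) ^ k⌋ (show (b : ℤ) ≠ 0 by omega)
  exact_mod_cast this

theorem good_real {b : ℕ} (hb : 2 ≤ b) {A B C : ℤ} (hA : 0 < A) {ξ : ℝ} (hirr : Irrational ξ)
    (hq : (A : ℝ) * ξ ^ 2 + B * ξ + C = 0) :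
    Good (fun k => (digit b ξ k : ℝ))
      (Real.sqrt (((b : ℝ) - 1) * (Int.gcd b (2 * A) : ℕ) / (Real.pi * A))) := by
  apply conseq _ (fun k => digit_nonneg hb ξ k)
  set y : ℝ := Int.fract ξ with hy
  have hξ : ξ = ⌊ξ⌋ + y := (Int.floor_add_fract ξ).symm
  have hyirr : Irrational y := by
    have : y = ξ - (⌊ξ⌋ : ℤ) := rfl
    rw [this]
    exact hirr.sub_intCast _
  have hy0 : 0 < y := lt_of_le_of_ne (Int.fract_nonneg ξ) (Ne.symm hyirr.ne_zero)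
  have hy1 : y < 1 := Int.fract_lt_one ξ
  have hq' : (A : ℝ) * y ^ 2 + ((B + 2 * A * ⌊ξ⌋ : ℤ) : ℝ) * y +
      ((C + B * ⌊ξ⌋ + A * ⌊ξ⌋ ^ 2 : ℤ) : ℝ) = 0 := by
    have h1 : (A : ℝ) * (⌊ξ⌋ + y) ^ 2 + B * (⌊ξ⌋ + y) + C = 0 := by rw [← hξ]; exact hq
    push_cast
    linarith
  intro ε hε
  obtain ⟨C₀, _, hC₀⟩ := win hb hy0 hy1 hyirr hA hq' ε hε
  refine ⟨C₀, fun m n hm hmn => (hC₀ m n hm hmn).trans (le_of_eq ?_)⟩
  have hd : ∀ k : ℕ, 1 ≤ k → (digit b ξ k : ℝ) = x b y k := by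
    intro k hk
    obtain ⟨j, rfl⟩ : ∃ j, k = j + 1 := ⟨k - 1, by omega⟩
    exact digit_eq hirr j
  have h1 : (K b y m : ℝ) = ∑ k ∈ Icc 1 m, (digit b ξ k : ℝ) := by
    have h2 : ∀ n : ℕ, (K b y n : ℝ) = ∑ k ∈ Icc 1 n, (digit b ξ k : ℝ) := by
      intro n
      induction n with
      | zero => simp [K, x_zero hy0 hy1]
      | succ n ih =>
        rw [Finset.sum_Icc_succ_top (by omega), ← ih, hd (n + 1) (by omega)]
        unfold K
        rw [sum_range_succ _ (n + 1)]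
        push_cast
        rfl
    exact h2 m
  rw [h1]
  congr 1
  refine sum_congr rfl fun i hi => ?_
  rw [hd i (by have := (mem_Ioc.mp hi).1; omega)]

theorem good_both {b : ℕ} (hb : 2 ≤ b) {A B C : ℤ} (hA : 0 < A) {ξ : ℝ} (hirr : Irrational ξ)
    (hq : (A : ℝ) * ξ ^ 2 + B * ξ + C = 0) :
    Good (fun k => (digit b ξ k : ℝ))
      (Real.sqrt (((b : ℝ) - 1) * (Int.gcd b (2 * A) : ℕ) / (Real.pi * A))) ∧
    Good (fun k => (b : ℝ) - 1 - (digit b ξ k : ℝ))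
      (Real.sqrt (((b : ℝ) - 1) * (Int.gcd b (2 * A) : ℕ) / (Real.pi * A))) := by
  refine ⟨good_real hb hA hirr hq, ?_⟩
  have h1 := good_real hb (A := A) (B := -B) (C := C) hA hirr.neg (by push_cast; linarith)
  have h2 : (fun k => (digit b (-ξ) k : ℝ)) = fun k => (b : ℝ) - 1 - (digit b ξ k : ℝ) := by
    funext k
    rw [digit_neg hb hirr]
    push_cast
    ring
  rwa [h2] at h1

end Pool.Agent.W288.LM
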