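import Pool.Agent.H820R3.DG.Quad

/-!
# Weighted digit sums of quadratic irrationals
-/

set_option autoImplicit false
set_option linter.unusedSectionVars false

open Finset

namespace Pool.Agent.W288.LM

open Pool.Agent.H394R2.Ones Pool.Agent.H820R3.DG

/-- comparison of weighted sums -/
lemma abel_ge (e w : ℕ → ℝ) (c : ℝ) (hw : Antitone w) (n : ℕ)
    (h : ∀ k, -c ≤ ∑ m ∈ range k, e m) (hwn : 0 ≤ w n) :
    -(c * w 0) ≤ ∑ m ∈ range n, e m * w m := by
  have key : ∀ k : ℕ, (∑ m ∈ range k, e m + c) * w k - c * w 0 ≤ ∑ m ∈ range k, e m * w m := by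
    intro k
    induction k with
    | zero => simp
    | succ k ih =>
      rw [sum_range_succ (fun m => e m * w m)]
      have h1 : w (k + 1) ≤ w k := hw (Nat.le_succ k)
      have h2 : 0 ≤ ∑ m ∈ range (k + 1), e m + c := by linarith [h (k + 1)]
      have h3 := mul_le_mul_of_nonneg_left h1 h2
      have h4 : (∑ m ∈ range (k + 1), e m + c) * w k = (∑ m ∈ range k, e m + c) * w k +
        e k * w k := by rw [sum_range_succ]; ring
      linarith
  have h5 := key n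
  have h6 : 0 ≤ (∑ m ∈ range n, e m + c) * w n := mul_nonneg (by linarith [h n]) hwn
  linarith

section
variable {b : ℕ} {y : ℝ}

/-- the weighted digit sum -/
noncomputable def F (b : ℕ) (y : ℝ) (n : ℕ) (σ : ℝ) : ℝ :=
  ∑ i ∈ range (n + 1), (x b y i : ℝ) * Real.exp (-(σ * i))

lemma F_nonneg (n : ℕ) (σ : ℝ) : 0 ≤ F b y n σ :=
  sum_nonneg fun _ _ => mul_nonneg (Nat.cast_nonneg _) (Real.exp_pos _).le

lemma r_sum (n : ℕ) (σ : ℝ) :
    ∑ m ∈ range (n + 1), (r b y m : ℝ) * Real.exp (-(σ * m)) ≤ F b y n σ ^ 2 := by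
  have h1 := pair_sum n (fun i j : ℕ => ((x b y i : ℝ) * x b y j) * Real.exp (-(σ * (i + j))))
  have h2 : ∑ p ∈ range (n + 1) ×ˢ range (n + 1),
      ((x b y p.1 : ℝ) * x b y p.2) * Real.exp (-(σ * (p.1 + p.2))) = F b y n σ ^ 2 := by
    unfold F
    rw [sq, sum_mul_sum, ← sum_product']
    refine sum_congr rfl fun p _ => ?_
    rw [show -(σ * ((p.1 : ℝ) + p.2)) = -(σ * p.1) + -(σ * p.2) by ring, Real.exp_add]
    ring
  have h3 : ∑ m ∈ range (n + 1), ∑ p ∈ antidiagonal m,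
      ((x b y p.1 : ℝ) * x b y p.2) * Real.exp (-(σ * (p.1 + p.2))) =
      ∑ m ∈ range (n + 1), (r b y m : ℝ) * Real.exp (-(σ * m)) := by
    refine sum_congr rfl fun m _ => ?_
    unfold r
    push_cast
    rw [sum_mul]
    refine sum_congr rfl fun p hp => ?_
    have : p.1 + p.2 = m := mem_antidiagonal.mp hp
    rw [← this]
    push_cast
    rfl
  rw [← h2, h1, h3]
  refine le_add_of_nonneg_right (sum_nonneg fun p _ => ?_)
  positivity

lemma K_w (n : ℕ) (σ : ℝ) (hσ : 0 ≤ σ) : (K b y n : ℝ) * Real.exp (-(σ * n)) ≤ F b y n σ := by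
  unfold K F
  push_cast
  rw [sum_mul]
  refine sum_le_sum fun i hi => ?_
  have h1 : i ≤ n := by have := mem_range.mp hi; omega
  have h2 : (i : ℝ) ≤ n := by exact_mod_cast h1
  apply mul_le_mul_of_nonneg_left _ (Nat.cast_nonneg _)
  apply Real.exp_le_exp.mpr
  nlinarith

lemma T_sum_w (hb : 2 ≤ b) (hy0 : 0 < y) (hy1 : y < 1) (hirr : Irrational y) (n : ℕ) (σ : ℝ)
    (hσ : 0 ≤ σ) :
    (b * Real.exp (-σ) - 1) * ∑ m ∈ range n, T b y m * Real.exp (-(σ * m)) ≤
      F b y n σ ^ 2 + F b y n σ + 1 := by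
  have h1 : ∑ m ∈ range n, T b y (m + 1) * Real.exp (-(σ * ((m + 1 : ℕ) : ℝ))) =
      b * Real.exp (-σ) * ∑ m ∈ range n, T b y m * Real.exp (-(σ * m)) -
        ∑ m ∈ range n, (r b y (m + 1) : ℝ) * Real.exp (-(σ * ((m + 1 : ℕ) : ℝ))) := by
    rw [mul_sum, ← sum_sub_distrib]
    refine sum_congr rfl fun m _ => ?_
    rw [T_succ hb hy0 hy1]
    have : Real.exp (-(σ * ((m + 1 : ℕ) : ℝ))) = Real.exp (-σ) * Real.exp (-(σ * m)) := by
      rw [← Real.exp_add]; congr 1; push_cast; ring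
    rw [this]; ring
  have h2 : ∑ m ∈ range n, T b y (m + 1) * Real.exp (-(σ * ((m + 1 : ℕ) : ℝ))) +
      T b y 0 * Real.exp (-(σ * ((0 : ℕ) : ℝ))) =
      ∑ m ∈ range n, T b y m * Real.exp (-(σ * m)) + T b y n * Real.exp (-(σ * n)) := by
    rw [← sum_range_succ (fun m => T b y m * Real.exp (-(σ * (m : ℝ)))),
      sum_range_succ' (fun m => T b y m * Real.exp (-(σ * (m : ℝ))))]
  have h3 : ∑ m ∈ range n, (r b y (m + 1) : ℝ) * Real.exp (-(σ * ((m + 1 : ℕ) : ℝ))) ≤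
      F b y n σ ^ 2 := by
    refine le_trans ?_ (r_sum n σ)
    rw [sum_range_succ' (fun m => (r b y m : ℝ) * Real.exp (-(σ * (m : ℝ))))]
    refine le_add_of_nonneg_right ?_
    positivity
  have h4 : T b y n * Real.exp (-(σ * n)) ≤ F b y n σ + 1 := by
    have h5 := T_le hb hy0 hy1 n
    have h6 := K_w (b := b) (y := y) n σ hσ
    have h7 : Real.exp (-(σ * n)) ≤ 1 := by
      apply Real.exp_le_one_iff.mpr
      have : (0 : ℝ) ≤ n := Nat.cast_nonneg _
      nlinarith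
    have h8 := Real.exp_pos (-(σ * n))
    have h9 := mul_le_mul_of_nonneg_right h5 h8.le
    linarith
  have h5 : 0 ≤ T b y 0 * Real.exp (-(σ * ((0 : ℕ) : ℝ))) :=
    mul_nonneg (T_pos hb hy0 hy1 hirr 0).le (Real.exp_pos _).le
  have h6 : (b * Real.exp (-σ) - 1) * ∑ m ∈ range n, T b y m * Real.exp (-(σ * m)) =
      b * Real.exp (-σ) * ∑ m ∈ range n, T b y m * Real.exp (-(σ * m)) -
        ∑ m ∈ range n, T b y m * Real.exp (-(σ * m)) := by ring
  rw [h6]
  linarith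

/-- the sum of the deficiencies -/
lemma dd_sum (hb : 2 ≤ b) (hy0 : 0 < y) (hy1 : y < 1) (hirr : Irrational y)
    (halg : IsAlgebraic ℚ y) (τ B δ : ℝ) (hτ : 0 ≤ τ) (hB : 0 ≤ B) (hδ : 0 < δ) (hδ1 : δ ≤ 1 / 4) :
    ∃ C2 : ℝ, 0 ≤ C2 ∧ ∀ n : ℕ,
      ∑ m ∈ range n, dd b y τ B m ≤ C2 * (K b y n + 1) + τ * δ * n := by
  obtain ⟨C1, hC10, hC1⟩ := bad_count hb hy0 hy1 halg hirr B δ hδ hδ1
  refine ⟨B + 2 * τ + τ * C1 + τ, by positivity, fun n => ?_⟩
  have hK : (0 : ℝ) ≤ K b y n := Nat.cast_nonneg _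
  unfold dd
  rw [sum_add_distrib, sum_add_distrib, sum_add_distrib, ← mul_sum, ← mul_sum, ← mul_sum,
    sum_add_distrib]
  have h1 := ep_sum (b := b) hb hy0 hy1 n
  have h2 : (∑ m ∈ range n, (x b y m : ℝ)) ≤ K b y n := by
    unfold K
    exact_mod_cast sum_le_sum_of_subset (range_mono (Nat.le_succ n))
  have h3 : (∑ m ∈ range n, (exc b y m : ℝ)) ≤ K b y n := by
    exact_mod_cast exc_sum b y n
  have h4 : (∑ m ∈ range n, (if T b y m ≤ B * ep b y m then (1 : ℝ) else 0)) ≤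
      C1 * (K b y n + 1) + δ * n := by
    have h5 := hC1 n
    rw [card_filter] at h5
    push_cast at h5
    exact h5
  have h5 := few_sum 0 n τ hτ
  rw [Nat.cast_zero, zero_add, mul_one] at h5
  have h6 := mul_le_mul_of_nonneg_left h1 hB
  have h7 := mul_le_mul_of_nonneg_left (add_le_add h2 h3) hτ
  have h8 := mul_le_mul_of_nonneg_left h4 hτ
  have h9 : 0 ≤ τ * K b y n := mul_nonneg hτ hK
  have e : (B + 2 * τ + τ * C1 + τ) * ((K b y n : ℝ) + 1) = B * (K b y n + 1) +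
      2 * (τ * K b y n) + 2 * τ + τ * (C1 * (K b y n + 1)) + τ * K b y n + τ := by ring
  rw [e]
  linarith

lemma geom_w (n : ℕ) (σ : ℝ) :
    (1 - Real.exp (-σ)) * ∑ m ∈ range n, Real.exp (-(σ * m)) = 1 - Real.exp (-(σ * n)) := by
  induction n with
  | zero => simp
  | succ n ih =>
    rw [sum_range_succ, mul_add, ih]
    have : Real.exp (-(σ * ((n + 1 : ℕ) : ℝ))) = Real.exp (-σ) * Real.exp (-(σ * n)) := by
      rw [← Real.exp_add]; congr 1; push_cast; ring
    rw [this]; ring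

/-- the main inequality -/
theorem gen (hb : 2 ≤ b) (hy0 : 0 < y) (hy1 : y < 1) (hirr : Irrational y) {A B C : ℤ}
    (hA : 0 < A) (hq : (A : ℝ) * y ^ 2 + B * y + C = 0) (δ : ℝ) (hδ : 0 < δ) (hδ1 : δ ≤ 1 / 4) :
    ∃ C₀ : ℝ, 0 ≤ C₀ ∧ ∀ n : ℕ, ∀ σ : ℝ, 0 < σ → σ ≤ 1 / 2 →
      (((b : ℝ) - 1) * (((Int.gcd b (2 * A) : ℕ) : ℝ) / A)) * (1 - δ) *
        (1 - Real.exp (-(σ * n))) / σ ≤ (F b y n σ + C₀) ^ 2 := by
  have hbR : (2 : ℝ) ≤ b := by exact_mod_cast hb
  have hAR : (1 : ℝ) ≤ A := by exact_mod_cast hA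
  have halg : IsAlgebraic ℚ y := by
    refine ⟨Polynomial.C (A : ℚ) * Polynomial.X ^ 2 + Polynomial.C (B : ℚ) * Polynomial.X +
      Polynomial.C (C : ℚ), ?_, ?_⟩
    · intro h
      have h1 := congrArg (fun p => Polynomial.coeff p 2) h
      simp only [Polynomial.coeff_add, Polynomial.coeff_C_mul, Polynomial.coeff_X_pow,
        Polynomial.coeff_X, Polynomial.coeff_C, Polynomial.coeff_zero] at h1
      norm_num at h1
      omega
    · simp only [map_add, map_mul, map_pow, Polynomial.aeval_X, Polynomial.aeval_C]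
      simpa using hq
  set τ : ℝ := ((Int.gcd b (2 * A) : ℕ) : ℝ) / A with hτ
  have hτ0 : 0 ≤ τ := by positivity
  have hB0 : 0 ≤ |(B : ℝ)| := abs_nonneg _
  obtain ⟨C2, hC20, hC2⟩ := dd_sum hb hy0 hy1 hirr halg τ |(B : ℝ)| δ hτ0 hB0 hδ hδ1
  refine ⟨1 + b * C2 + b * τ, by positivity, fun n σ hσ hσ1 => ?_⟩
  set f := F b y n σ with hf
  have hf0 : 0 ≤ f := F_nonneg n σ
  set W := ∑ m ∈ range n, Real.exp (-(σ * m)) with hW
  have hW0 : 0 ≤ W := sum_nonneg fun _ _ => (Real.exp_pos _).le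
  -- deficiency
  have h1 : ∑ m ∈ range n, dd b y τ |(B : ℝ)| m * Real.exp (-(σ * m)) ≤
      C2 + 2 * C2 * f + τ * δ * W := by
    have h2 := abel_ge (fun m => C2 * x b y (m + 1) + τ * δ - dd b y τ |(B : ℝ)| m)
      (fun m => Real.exp (-(σ * m))) C2 (by
        intro i j hij
        apply Real.exp_le_exp.mpr
        have : (i : ℝ) ≤ j := by exact_mod_cast hij
        nlinarith) n (by
        intro k
        have h3 := hC2 k
        have h4 : (K b y k : ℝ) = ∑ m ∈ range k, (x b y (m + 1) : ℝ) := by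
          unfold K
          rw [sum_range_succ', x_zero hy0 hy1]
          push_cast
          ring
        rw [sum_sub_distrib, sum_add_distrib, ← mul_sum, ← h4]
        simp only [sum_const, card_range, nsmul_eq_mul]
        linarith) (Real.exp_pos _).le
    simp only [Nat.cast_zero, mul_zero, neg_zero, Real.exp_zero, mul_one] at h2
    have h3 : ∑ m ∈ range n, (C2 * x b y (m + 1) + τ * δ - dd b y τ |(B : ℝ)| m) *
        Real.exp (-(σ * m)) = C2 * ∑ m ∈ range n, (x b y (m + 1) : ℝ) * Real.exp (-(σ * m)) +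
        τ * δ * W - ∑ m ∈ range n, dd b y τ |(B : ℝ)| m * Real.exp (-(σ * m)) := by
      rw [hW, mul_sum, mul_sum, ← sum_add_distrib, ← sum_sub_distrib]
      refine sum_congr rfl fun m _ => ?_
      ring
    rw [h3] at h2
    have h4 : ∑ m ∈ range n, (x b y (m + 1) : ℝ) * Real.exp (-(σ * m)) ≤ 2 * f := by
      have h5 : Real.exp σ ≤ 2 := by
        have h6 : Real.exp σ ≤ Real.exp (1 / 2) := Real.exp_le_exp.mpr hσ1
        have h7 : Real.exp (1 / 2) ^ 2 = Real.exp 1 := by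
          rw [← Real.exp_nat_mul]; norm_num
        have h8 := Real.exp_one_lt_d9
        have h9 := Real.exp_pos (1 / 2)
        nlinarith
      have h6 : ∑ m ∈ range n, (x b y (m + 1) : ℝ) * Real.exp (-(σ * m)) =
          Real.exp σ * ∑ m ∈ range n, (x b y (m + 1) : ℝ) *
            Real.exp (-(σ * ((m + 1 : ℕ) : ℝ))) := by
        rw [mul_sum]
        refine sum_congr rfl fun m _ => ?_
        have : Real.exp (-(σ * m)) = Real.exp σ * Real.exp (-(σ * ((m + 1 : ℕ) : ℝ))) := by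
          rw [← Real.exp_add]; congr 1; push_cast; ring
        rw [this]; ring
      have h7 : ∑ m ∈ range n, (x b y (m + 1) : ℝ) *
            Real.exp (-(σ * ((m + 1 : ℕ) : ℝ))) ≤ f := by
        rw [hf]
        unfold F
        rw [sum_range_succ' (fun m => (x b y m : ℝ) * Real.exp (-(σ * (m : ℝ))))]
        refine le_add_of_nonneg_right ?_
        positivity
      rw [h6]
      have h8 := Real.exp_pos σ
      nlinarith
    have h5 := mul_le_mul_of_nonneg_left h4 hC20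
    linarith
  have h2 : τ * (1 - δ) * W - C2 - 2 * C2 * f ≤ ∑ m ∈ range n, T b y m * Real.exp (-(σ * m)) := by
    have h3 : ∑ m ∈ range n, (τ - dd b y τ |(B : ℝ)| m) * Real.exp (-(σ * m)) ≤
        ∑ m ∈ range n, T b y m * Real.exp (-(σ * m)) :=
      sum_le_sum fun m _ => mul_le_mul_of_nonneg_right
        (T_lower' hb hy0 hy1 hirr hA hq m) (Real.exp_pos _).le
    have h4 : ∑ m ∈ range n, (τ - dd b y τ |(B : ℝ)| m) * Real.exp (-(σ * m)) =
        τ * W - ∑ m ∈ range n, dd b y τ |(B : ℝ)| m * Real.exp (-(σ * m)) := by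
      rw [hW, mul_sum, ← sum_sub_distrib]
      refine sum_congr rfl fun m _ => ?_
      ring
    rw [h4] at h3
    linarith
  have h3 := T_sum_w hb hy0 hy1 hirr n σ hσ.le
  rw [← hf] at h3
  set q := Real.exp (-σ) with hqd
  have hq1 : 1 - σ ≤ q := by
    have := Real.add_one_le_exp (-σ)
    linarith
  have hq2 : q < 1 := by
    rw [hqd, ← Real.exp_zero]; exact Real.exp_lt_exp.mpr (by linarith)
  have hq3 : 0 < q := Real.exp_pos _
  have hbq : 0 ≤ b * q - 1 := by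
    have : 1 / 2 ≤ q := by linarith
    nlinarith
  have hbq2 : b * q - 1 ≤ b := by nlinarith
  have h4 := mul_le_mul_of_nonneg_left h2 hbq
  have hgeo := geom_w n σ
  rw [← hW, ← hqd] at hgeo
  set E := 1 - Real.exp (-(σ * n)) with hE
  have hE0 : 0 ≤ E := by
    have : Real.exp (-(σ * n)) ≤ 1 := by
      apply Real.exp_le_one_iff.mpr
      have : (0 : ℝ) ≤ n := Nat.cast_nonneg _
      nlinarith
    linarith
  have hE1 : E ≤ 1 := by
    have := Real.exp_pos (-(σ * n))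
    linarith
  -- `(b q - 1) W ≥ (b - 1) E / σ - b E`
  have h5 : ((b : ℝ) - 1) * E / σ - b * E ≤ (b * q - 1) * W := by
    have h6 : E / σ ≤ W := by
      rw [div_le_iff₀ hσ, ← hgeo]
      nlinarith
    have h7 : (b * q - 1) * W = (b - 1) * W - b * E := by rw [← hgeo]; ring
    rw [h7]
    have h8 : ((b : ℝ) - 1) * (E / σ) ≤ (b - 1) * W :=
      mul_le_mul_of_nonneg_left h6 (by linarith)
    have h9 : ((b : ℝ) - 1) * E / σ = (b - 1) * (E / σ) := by ring
    rw [h9]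
    linarith
  have h6 : τ * (1 - δ) * (((b : ℝ) - 1) * E / σ - b * E) ≤ τ * (1 - δ) * ((b * q - 1) * W) :=
    mul_le_mul_of_nonneg_left h5 (mul_nonneg hτ0 (by linarith))
  have h7 : τ * (1 - δ) * (b * E) ≤ b * τ := by
    have h8 : (1 - δ) * E ≤ 1 * 1 := mul_le_mul (by linarith) hE1 hE0 (by norm_num)
    have h9 : 0 ≤ b * τ := by positivity
    have e0 : τ * (1 - δ) * (b * E) = b * τ * ((1 - δ) * E) := by ring
    rw [e0]
    have e1 := mul_le_mul_of_nonneg_left h8 h9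
    linarith
  have h8 : (b * q - 1) * (C2 + 2 * C2 * f) ≤ b * (C2 + 2 * C2 * f) :=
    mul_le_mul_of_nonneg_right hbq2 (by positivity)
  have h9 : ((b : ℝ) - 1) * τ * (1 - δ) * E / σ = τ * (1 - δ) * (((b : ℝ) - 1) * E / σ) := by ring
  rw [h9]
  have h10 : 0 ≤ b * C2 := by positivity
  have h11 : 0 ≤ b * τ := by positivity
  have h12 : τ * (1 - δ) * (((b : ℝ) - 1) * E / σ) ≤
      f ^ 2 + f + 1 + b * (C2 + 2 * C2 * f) + b * τ := by
    have e1 : τ * (1 - δ) * (((b : ℝ) - 1) * E / σ - b * E) =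
        τ * (1 - δ) * (((b : ℝ) - 1) * E / σ) - τ * (1 - δ) * (b * E) := by ring
    have e2 : (b * q - 1) * (τ * (1 - δ) * W - C2 - 2 * C2 * f) =
        τ * (1 - δ) * ((b * q - 1) * W) - (b * q - 1) * (C2 + 2 * C2 * f) := by ring
    rw [e1] at h6
    rw [e2] at h4
    linarith
  refine h12.trans ?_
  have e3 : (f + (1 + b * C2 + b * τ)) ^ 2 = f ^ 2 + 2 * f + 2 * (b * C2 * f) +
      2 * (b * τ * f) + 1 + 2 * (b * C2) + 2 * (b * τ) + (b * C2 + b * τ) ^ 2 := by ring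
  rw [e3]
  have e4 := mul_nonneg h11 hf0
  have e5 := sq_nonneg (b * C2 + b * τ)
  linarith

end

end Pool.Agent.W288.LM
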