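import Pool.Agent.W288.LM.Gen

/-!
# Logarithmic averages over windows
-/

set_option autoImplicit false
set_option linter.unusedSectionVars false

open Finset MeasureTheory

namespace Pool.Agent.W288.LM

open Pool.Agent.H394R2.Ones Pool.Agent.H820R3.DG

lemma cont_rpow {a c : ℝ} (ha : 0 < a) : ContinuousOn (fun σ : ℝ => σ ^ (-(1 / 2) : ℝ)) (Set.Icc a c) :=
  continuousOn_id.rpow_const fun x hx => Or.inl (by
    have := hx.1
    simp only [id]
    linarith)

lemma cont_J {a c : ℝ} (ha : 0 < a) (i : ℕ) :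
    ContinuousOn (fun σ : ℝ => Real.exp (-(σ * i)) * σ ^ (-(1 / 2) : ℝ)) (Set.Icc a c) :=
  (Continuous.continuousOn (by fun_prop)).mul (cont_rpow ha)

lemma int_rpow {a c : ℝ} :
    ∫ σ in a..c, σ ^ (-(1 / 2) : ℝ) = 2 * Real.sqrt c - 2 * Real.sqrt a := by
  rw [integral_rpow (Or.inl (by norm_num))]
  rw [show (-(1 / 2) : ℝ) + 1 = 1 / 2 by norm_num, ← Real.sqrt_eq_rpow, ← Real.sqrt_eq_rpow]
  ring

lemma J_small {a c : ℝ} (ha : 0 < a) (hac : a ≤ c) (i : ℕ) :
    ∫ σ in a..c, Real.exp (-(σ * i)) * σ ^ (-(1 / 2) : ℝ) ≤ 2 * Real.sqrt c := by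
  have h1 : ∫ σ in a..c, Real.exp (-(σ * i)) * σ ^ (-(1 / 2) : ℝ) ≤
      ∫ σ in a..c, σ ^ (-(1 / 2) : ℝ) := by
    apply intervalIntegral.integral_mono_on hac
    · exact (cont_J ha i).intervalIntegrable_of_Icc hac
    · exact (cont_rpow ha).intervalIntegrable_of_Icc hac
    · intro σ hσ
      have h2 : 0 < σ := lt_of_lt_of_le ha hσ.1
      have h3 : Real.exp (-(σ * i)) ≤ 1 := by
        apply Real.exp_le_one_iff.mpr
        have : (0 : ℝ) ≤ i := Nat.cast_nonneg _
        nlinarith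
      have h4 : 0 ≤ σ ^ (-(1 / 2) : ℝ) := Real.rpow_nonneg h2.le _
      nlinarith
  rw [int_rpow] at h1
  have := Real.sqrt_nonneg a
  linarith

lemma J_big {a c : ℝ} (ha : 0 < a) (hac : a ≤ c) (i : ℕ) (hi : 1 ≤ i) :
    ∫ σ in a..c, Real.exp (-(σ * i)) * σ ^ (-(1 / 2) : ℝ) ≤
      Real.sqrt Real.pi * (1 / Real.sqrt i) := by
  have hi0 : (0 : ℝ) < i := by exact_mod_cast hi
  have h1 := Real.integral_rpow_mul_exp_neg_mul_Ioi (a := 1 / 2) (r := i) (by norm_num) hi0
  rw [Real.Gamma_one_half_eq, show (1 / 2 : ℝ) - 1 = -(1 / 2) by norm_num,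
    ← Real.sqrt_eq_rpow, Real.sqrt_div zero_le_one, Real.sqrt_one] at h1
  have h2 : IntegrableOn (fun σ : ℝ => Real.exp (-(σ * i)) * σ ^ (-(1 / 2) : ℝ)) (Set.Ioi 0) := by
    have h3 := integrableOn_rpow_mul_exp_neg_mul_rpow (p := 1) (s := -(1 / 2)) (b := i)
      (by norm_num) (by norm_num) hi0
    refine h3.congr_fun (fun σ _ => ?_) measurableSet_Ioi
    simp only [Real.rpow_one]
    rw [mul_comm, show -(i : ℝ) * σ = -(σ * i) by ring]
  rw [intervalIntegral.integral_of_le hac]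
  have h3 : ∫ σ in Set.Ioc a c, Real.exp (-(σ * i)) * σ ^ (-(1 / 2) : ℝ) ≤
      ∫ σ in Set.Ioi 0, Real.exp (-(σ * i)) * σ ^ (-(1 / 2) : ℝ) := by
    apply setIntegral_mono_set h2
    · refine (ae_restrict_iff' measurableSet_Ioi).mpr (Filter.Eventually.of_forall fun σ hσ => ?_)
      have : (0 : ℝ) < σ := hσ
      simp only [Pi.zero_apply]
      positivity
    · refine (Filter.Eventually.of_forall fun σ hσ => ?_)
      have : a < σ := hσ.1
      show (0 : ℝ) < σ
      linarith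
  refine h3.trans (le_of_eq ?_)
  rw [mul_comm (Real.sqrt Real.pi), ← h1]
  refine setIntegral_congr_fun measurableSet_Ioi fun σ _ => ?_
  rw [mul_comm (Real.exp _), mul_comm σ (i : ℝ)]

section
variable {b : ℕ} {y : ℝ}

lemma F_int_upper {a c : ℝ} (ha : 0 < a) (hac : a ≤ c) (m n : ℕ) (hmn : m ≤ n) :
    ∫ σ in a..c, F b y n σ * σ ^ (-(1 / 2) : ℝ) ≤
      2 * Real.sqrt c * K b y m +
        Real.sqrt Real.pi * ∑ i ∈ Ioc m n, (x b y i : ℝ) / Real.sqrt i := by
  have h1 : ∫ σ in a..c, F b y n σ * σ ^ (-(1 / 2) : ℝ) =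
      ∑ i ∈ range (n + 1), (x b y i : ℝ) *
        ∫ σ in a..c, Real.exp (-(σ * i)) * σ ^ (-(1 / 2) : ℝ) := by
    have h2 : ∀ σ : ℝ, F b y n σ * σ ^ (-(1 / 2) : ℝ) =
        ∑ i ∈ range (n + 1), (x b y i : ℝ) * (Real.exp (-(σ * i)) * σ ^ (-(1 / 2) : ℝ)) := by
      intro σ
      unfold F
      rw [sum_mul]
      refine sum_congr rfl fun i _ => ?_
      ring
    simp only [h2]
    rw [intervalIntegral.integral_finsetSum]
    · refine sum_congr rfl fun i _ => ?_
      rw [intervalIntegral.integral_const_mul]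
    · intro i _
      exact ((cont_J ha i).intervalIntegrable_of_Icc hac).const_mul _
  rw [h1]
  have h2 : range (n + 1) = range (m + 1) ∪ Ioc m n := by
    ext j; simp only [mem_range, mem_union, mem_Ioc]; omega
  have h3 : Disjoint (range (m + 1)) (Ioc m n) := by
    rw [Finset.disjoint_left]
    intro j hj1 hj2
    have := mem_range.mp hj1
    have := mem_Ioc.mp hj2
    omega
  rw [h2, sum_union h3]
  refine add_le_add ?_ ?_
  · unfold K
    push_cast
    rw [mul_sum]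
    refine sum_le_sum fun i _ => ?_
    have h4 := J_small ha hac i
    have h5 : (0 : ℝ) ≤ x b y i := Nat.cast_nonneg _
    nlinarith
  · rw [mul_sum]
    refine sum_le_sum fun i hi => ?_
    have h4 := J_big ha hac i (by have := (mem_Ioc.mp hi).1; omega)
    have h5 : (0 : ℝ) ≤ x b y i := Nat.cast_nonneg _
    have h6 := mul_le_mul_of_nonneg_left h4 h5
    refine h6.trans (le_of_eq ?_)
    ring

/-- logarithmic averages over all windows -/
theorem win (hb : 2 ≤ b) (hy0 : 0 < y) (hy1 : y < 1) (hirr : Irrational y) {A B C : ℤ}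
    (hA : 0 < A) (hq : (A : ℝ) * y ^ 2 + B * y + C = 0) (ε : ℝ) (hε : 0 < ε) :
    ∃ C₀ : ℝ, 0 ≤ C₀ ∧ ∀ m n : ℕ, 1 ≤ m → m ≤ n →
      (Real.sqrt (((b : ℝ) - 1) * (Int.gcd b (2 * A) : ℕ) / (Real.pi * A)) - ε) *
        Real.log ((n : ℝ) / m) - C₀ ≤
      ∑ i ∈ Ioc m n, (x b y i : ℝ) / Real.sqrt i + K b y m / Real.sqrt m := by
  have hbR : (2 : ℝ) ≤ b := by exact_mod_cast hb
  have hAR : (1 : ℝ) ≤ A := by exact_mod_cast hA
  have hpi := Real.pi_pos
  have hpi3 := Real.pi_gt_three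
  set κ : ℝ := ((b : ℝ) - 1) * (((Int.gcd b (2 * A) : ℕ) : ℝ) / A) with hκ
  have hκ0 : 0 ≤ κ := by
    have : (0 : ℝ) ≤ (b : ℝ) - 1 := by linarith
    positivity
  have hκ1 : ((b : ℝ) - 1) * (Int.gcd b (2 * A) : ℕ) / (Real.pi * A) = κ / Real.pi := by
    rw [hκ]; field_simp
  rw [hκ1]
  set s : ℝ := Real.sqrt (κ / Real.pi) with hs
  have hs0 : 0 ≤ s := Real.sqrt_nonneg _
  have hsk : Real.sqrt κ = Real.sqrt Real.pi * s := by
    rw [hs, ← Real.sqrt_mul hpi.le]; congr 1; field_simp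
  have hsp : 1 ≤ Real.sqrt Real.pi := by
    rw [Real.one_le_sqrt]; linarith
  set δ : ℝ := min (1 / 4) (ε / (s + 1)) with hδd
  have hδ : 0 < δ := by positivity
  have hδ1 : δ ≤ 1 / 4 := min_le_left _ _
  have hδ2 : s * δ ≤ ε := by
    have h1 : δ ≤ ε / (s + 1) := min_le_right _ _
    rw [le_div_iff₀ (by positivity)] at h1
    nlinarith
  obtain ⟨C1, hC1, hgen⟩ := gen hb hy0 hy1 hirr hA hq δ hδ hδ1
  set A₀ : ℝ := Real.log (1 / δ) with hA₀
  have hA1 : 1 ≤ A₀ := by
    rw [hA₀, Real.le_log_iff_exp_le (by positivity)]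
    have h1 := Real.exp_one_lt_d9
    have h2 : 4 ≤ 1 / δ := by rw [le_div_iff₀ hδ]; linarith
    linarith
  have hexpA : Real.exp (-A₀) = δ := by
    rw [hA₀, ← Real.log_inv, one_div, inv_inv, Real.exp_log hδ]
  have hlogA : 0 ≤ Real.log (2 * A₀) := Real.log_nonneg (by linarith)
  refine ⟨s * Real.log (2 * A₀) + 2 * C1, by positivity, fun m n hm hmn => ?_⟩
  have hm0 : (0 : ℝ) < m := by exact_mod_cast hm
  have hn0 : (0 : ℝ) < n := by exact_mod_cast (by omega : 0 < n)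
  have hmnR : (m : ℝ) ≤ n := by exact_mod_cast hmn
  have hL0 : 0 ≤ Real.log ((n : ℝ) / m) := Real.log_nonneg (by rw [le_div_iff₀ hm0]; linarith)
  have hR1 : 0 ≤ ∑ i ∈ Ioc m n, (x b y i : ℝ) / Real.sqrt i := sum_nonneg fun i _ => by positivity
  have hR2 : 0 ≤ (K b y m : ℝ) / Real.sqrt m := by positivity
  set L := Real.log ((n : ℝ) / m) with hL
  set a : ℝ := A₀ / n with ha
  set c : ℝ := 1 / (2 * m) with hc
  have ha0 : 0 < a := by positivity
  have hc0 : 0 < c := by positivity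
  rcases lt_or_ge c a with hca | hac
  · have h1 : (n : ℝ) / m ≤ 2 * A₀ := by
      rw [hc, ha, div_lt_div_iff₀ (by positivity) hn0] at hca
      rw [div_le_iff₀ hm0]
      linarith
    have h2 : L ≤ Real.log (2 * A₀) := Real.log_le_log (by positivity) h1
    have h3 := mul_le_mul_of_nonneg_left h2 hs0
    have h4 := mul_nonneg hε.le hL0
    have h5 : (s - ε) * L = s * L - ε * L := by ring
    rw [h5]
    linarith
  -- main case
  have hc1 : c ≤ 1 / 2 := by
    rw [hc, div_le_div_iff₀ (by positivity) (by norm_num)]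
    have : (1 : ℝ) ≤ m := by exact_mod_cast hm
    linarith
  have h1 : ∀ σ ∈ Set.Icc a c, (1 - δ) * Real.sqrt κ * σ⁻¹ - C1 * σ ^ (-(1 / 2) : ℝ) ≤
      F b y n σ * σ ^ (-(1 / 2) : ℝ) := by
    intro σ hσ
    have hσ0 : 0 < σ := lt_of_lt_of_le ha0 hσ.1
    have h2 := hgen n σ hσ0 (hσ.2.trans hc1)
    have h3 : Real.exp (-(σ * n)) ≤ δ := by
      rw [← hexpA]
      apply Real.exp_le_exp.mpr
      have h4 : A₀ ≤ σ * n := by
        have := hσ.1
        rw [ha, div_le_iff₀ hn0] at this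
        exact this
      linarith
    have h4 : κ * (1 - δ) ^ 2 / σ ≤ (F b y n σ + C1) ^ 2 := by
      refine le_trans ?_ h2
      apply div_le_div_of_nonneg_right _ hσ0.le
      rw [← hκ, sq, ← mul_assoc]
      apply mul_le_mul_of_nonneg_left (by linarith)
      exact mul_nonneg hκ0 (by linarith)
    have h5 : (1 - δ) * Real.sqrt κ * σ ^ (-(1 / 2) : ℝ) ≤ F b y n σ + C1 := by
      apply le_of_sq_le_sq _ (add_nonneg (F_nonneg n σ) hC1)
      refine le_trans (le_of_eq ?_) h4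
      rw [mul_pow, mul_pow, Real.sq_sqrt hκ0, ← Real.rpow_natCast (σ ^ (-(1 / 2) : ℝ)) 2,
        ← Real.rpow_mul hσ0.le]
      rw [show (-(1 / 2) : ℝ) * ((2 : ℕ) : ℝ) = -1 by norm_num, Real.rpow_neg_one]
      ring
    have h6 : 0 ≤ σ ^ (-(1 / 2) : ℝ) := Real.rpow_nonneg hσ0.le _
    have h7 := mul_le_mul_of_nonneg_right h5 h6
    have h8 : σ ^ (-(1 / 2) : ℝ) * σ ^ (-(1 / 2) : ℝ) = σ⁻¹ := by
      rw [← Real.rpow_add hσ0, show (-(1 / 2) : ℝ) + (-(1 / 2) : ℝ) = -1 by norm_num,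
        Real.rpow_neg_one]
    rw [mul_assoc, h8] at h7
    linarith
  have hcinv : ContinuousOn (fun σ : ℝ => σ⁻¹) (Set.Icc a c) :=
    continuousOn_inv₀.mono fun σ hσ => by
      have := hσ.1
      simp only [Set.mem_compl_iff, Set.mem_singleton_iff]
      linarith
  have hcontF : ContinuousOn (fun σ => F b y n σ) (Set.Icc a c) := by
    unfold F
    exact Continuous.continuousOn (by fun_prop)
  have h2 : ∫ σ in a..c, ((1 - δ) * Real.sqrt κ * σ⁻¹ - C1 * σ ^ (-(1 / 2) : ℝ)) ≤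
      ∫ σ in a..c, F b y n σ * σ ^ (-(1 / 2) : ℝ) := by
    apply intervalIntegral.integral_mono_on hac
    · apply ContinuousOn.intervalIntegrable_of_Icc hac
      exact (hcinv.const_mul _).sub ((cont_rpow ha0).const_mul _)
    · apply ContinuousOn.intervalIntegrable_of_Icc hac
      exact hcontF.mul (cont_rpow ha0)
    · exact h1
  have h3 : ∫ σ in a..c, ((1 - δ) * Real.sqrt κ * σ⁻¹ - C1 * σ ^ (-(1 / 2) : ℝ)) =
      (1 - δ) * Real.sqrt κ * Real.log (c / a) -
        C1 * (2 * Real.sqrt c - 2 * Real.sqrt a) := by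
    rw [intervalIntegral.integral_sub, intervalIntegral.integral_const_mul,
      intervalIntegral.integral_const_mul, integral_inv_of_pos ha0 hc0, int_rpow]
    · exact (hcinv.const_mul _).intervalIntegrable_of_Icc hac
    · exact ((cont_rpow ha0).const_mul _).intervalIntegrable_of_Icc hac
  rw [h3] at h2
  have h4 := h2.trans (F_int_upper (b := b) (y := y) ha0 hac m n hmn)
  have h5 : Real.log (c / a) = L - Real.log (2 * A₀) := by
    rw [hL, ← Real.log_div (by positivity) (by positivity)]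
    congr 1
    rw [hc, ha]
    field_simp
  have hsc : Real.sqrt c ≤ 1 := by
    rw [← Real.sqrt_one]
    exact Real.sqrt_le_sqrt (by linarith)
  have h6 : 2 * Real.sqrt c * K b y m ≤ Real.sqrt Real.pi * (K b y m / Real.sqrt m) := by
    have h7 : Real.sqrt c = 1 / (Real.sqrt 2 * Real.sqrt m) := by
      rw [hc, Real.sqrt_div (by norm_num), Real.sqrt_one, Real.sqrt_mul (by norm_num)]
    have h8 : 2 * Real.sqrt c * K b y m = Real.sqrt 2 * (K b y m / Real.sqrt m) := by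
      rw [h7]
      have h9 : Real.sqrt 2 * Real.sqrt 2 = 2 := Real.mul_self_sqrt (by norm_num)
      have h10 : 0 < Real.sqrt 2 := by positivity
      have h11 : 0 < Real.sqrt m := by positivity
      rw [mul_one_div, div_mul_eq_mul_div, mul_div_assoc', div_eq_div_iff (by positivity)
        (by positivity)]
      linear_combination (-(K b y m : ℝ) * Real.sqrt m) * h9
    rw [h8]
    apply mul_le_mul_of_nonneg_right _ hR2
    apply Real.sqrt_le_sqrt
    linarith
  have hsqa := Real.sqrt_nonneg a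
  have h7 : C1 * (2 * Real.sqrt c - 2 * Real.sqrt a) ≤ 2 * C1 := by
    have h8 : C1 * (2 * Real.sqrt c - 2 * Real.sqrt a) ≤ C1 * 2 :=
      mul_le_mul_of_nonneg_left (by linarith) hC1
    linarith
  set R := ∑ i ∈ Ioc m n, (x b y i : ℝ) / Real.sqrt i + K b y m / Real.sqrt m with hR
  have h8 : (1 - δ) * Real.sqrt κ * (L - Real.log (2 * A₀)) - 2 * C1 ≤ Real.sqrt Real.pi * R := by
    rw [← h5, hR, mul_add]
    linarith
  rw [hsk] at h8
  have h9 : Real.sqrt Real.pi * ((1 - δ) * s * (L - Real.log (2 * A₀)) - 2 * C1) ≤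
      Real.sqrt Real.pi * R := by
    refine le_trans ?_ h8
    have e1 : 2 * C1 ≤ Real.sqrt Real.pi * (2 * C1) := le_mul_of_one_le_left (by positivity) hsp
    have e2 : Real.sqrt Real.pi * ((1 - δ) * s * (L - Real.log (2 * A₀)) - 2 * C1) =
      (1 - δ) * (Real.sqrt Real.pi * s) * (L - Real.log (2 * A₀)) -
        Real.sqrt Real.pi * (2 * C1) := by ring
    rw [e2]
    linarith
  have h10 := le_of_mul_le_mul_left h9 (by positivity)
  refine le_trans ?_ h10
  have e1 : s * δ * L ≤ ε * L := mul_le_mul_of_nonneg_right hδ2 hL0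
  have e2 : 0 ≤ s * δ * Real.log (2 * A₀) := by positivity
  have e3 : (1 - δ) * s * (L - Real.log (2 * A₀)) - 2 * C1 = s * L - s * δ * L -
    s * Real.log (2 * A₀) + s * δ * Real.log (2 * A₀) - 2 * C1 := by ring
  rw [e3]
  linarith

end

end Pool.Agent.W288.LM
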